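import Pool.Graph.R_seed8.Results.MP_408802_co.NoConstantFraction

set_option autoImplicit false

/-!
# Orienting mixed graphs loses a polynomial factor of the (unweighted) reachability

For every `n ≥ 2` there is a mixed graph with `n` vertices such that every orientation keeps only a
fraction `O(n^(-1/4))` of the pairs `(u, v)`, `u ≠ v`, with `v` reachable from `u`. No weights are
needed. The graphs are butterfly networks with isolated vertices added. All ordered pairs of
vertices are counted, not only those from the first to the last level: if `ρ i x` is the number of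
all vertices which are reachable from `(i, x)` in an orientation then
`3 ∑ ρ i x ^ 2 ≤ 8 ∑ ρ (i+1) x ^ 2 + O(2 ^ k)`.

The butterfly and the definitions are those of the starting file `NoConstantFraction`, where it is
shown that no constant fraction of the weighted reachability survives.
-/

namespace Pool.Agent.Results.MP_408802_co.PolynomialLoss

open Relation Finset
open Pool.Agent.Results.MP_408802_co.NoConstantFraction hiding flip flip_flip

/-! ### the butterfly -/

section butterfly

variable {k : ℕ}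

open Classical in
/-- the set of all vertices reachable from `v` -/
noncomputable def T (o : BE k → Bool) (v : BV k) : Finset (BV k) :=
  univ.filter fun u => ReflTransGen ((butterfly k).OStep o) v u

lemma mem_T (o : BE k → Bool) (v u : BV k) :
    u ∈ T o v ↔ ReflTransGen ((butterfly k).OStep o) v u := by
  simp [T]

lemma lev_ne_last' (j : Fin k) : lev k j ≠ Fin.last (k + 1) := by
  intro h
  have := congrArg Fin.val h
  simp only [lev, Fin.val_last] at this
  omega

lemma T_last (o : BE k → Bool) (x : Fin k → Bool) : (T o (Fin.last (k + 1), x)).card = 1 := by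
  rw [card_eq_one]
  refine ⟨(Fin.last (k + 1), x), ?_⟩
  ext u
  rw [mem_T, mem_singleton]
  constructor
  · intro h
    rcases ReflTransGen.cases_head h with h | ⟨y, h, _⟩
    · exact h.symm
    · exact absurd h (no_step_last o x y)
  · rintro rfl
    exact ReflTransGen.refl

lemma T_zero (o : BE k → Bool) (x : Fin k → Bool) :
    (T o (0, x)).card ≤ (T o (1, x)).card + 1 := by
  classical
  refine le_trans (card_le_card (t := insert (0, x) (T o (1, x))) ?_) (card_insert_le _ _)
  intro u hu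
  rw [mem_T] at hu
  rw [mem_insert, mem_T]
  rcases ReflTransGen.cases_head hu with h | ⟨y, h, h'⟩
  · exact Or.inl h.symm
  · rw [step_zero o x y h] at h'
    exact Or.inr h'

lemma T_A_sub (o : BE k → Bool) (j : Fin k) (x : Fin k → Bool) (hd : dir o j x ≠ !x j)
    (u : BV k) (h : u ∈ T o (lev k j, x)) : u = (lev k j, x) ∨ u ∈ T o (nxt j, x) := by
  rw [mem_T] at h ⊢
  rcases ReflTransGen.cases_head h with h | ⟨y, h, h'⟩
  · exact Or.inl h.symm
  · rcases step_lev o j x y h with rfl | ⟨_, h2⟩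
    · exact Or.inr h'
    · exact absurd h2 hd

lemma T_A (o : BE k → Bool) (j : Fin k) (x : Fin k → Bool) (hd : dir o j x ≠ !x j) :
    (T o (lev k j, x)).card ≤ (T o (nxt j, x)).card + 1 := by
  classical
  refine le_trans (card_le_card (t := insert (lev k j, x) (T o (nxt j, x))) ?_)
    (card_insert_le _ _)
  intro u hu
  rw [mem_insert]
  exact T_A_sub o j x hd u hu

lemma T_B (o : BE k → Bool) (j : Fin k) (x : Fin k → Bool) (hd : dir o j x = !x j) :
    (T o (lev k j, x)).card ≤
      (T o (nxt j, x)).card + (T o (nxt j, NoConstantFraction.flip k j x)).card + 2 := by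
  classical
  have h1 : T o (lev k j, x) ⊆
      insert (lev k j, x) (insert (lev k j, NoConstantFraction.flip k j x)
      (T o (nxt j, x) ∪ T o (nxt j, NoConstantFraction.flip k j x))) := by
    intro u hu
    rw [mem_insert, mem_insert, mem_union]
    rw [mem_T] at hu
    rcases ReflTransGen.cases_head hu with h | ⟨y, h, h'⟩
    · exact Or.inl h.symm
    · right
      rcases step_lev o j x y h with rfl | ⟨rfl, h2⟩
      · exact Or.inr (Or.inl ((mem_T _ _ _).2 h'))
      · rcases T_A_sub o j (NoConstantFraction.flip k j x) (by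
          rw [dir_flip, flip_apply, hd]
          cases x j <;> simp) u ((mem_T _ _ _).2 h') with h3 | h3
        · exact Or.inl h3
        · exact Or.inr (Or.inr h3)
  have h2 := card_le_card h1
  have h3 := card_insert_le (lev k j, x) (insert (lev k j, NoConstantFraction.flip k j x)
      (T o (nxt j, x) ∪ T o (nxt j, NoConstantFraction.flip k j x)))
  have h4 := card_insert_le (lev k j, NoConstantFraction.flip k j x)
    (T o (nxt j, x) ∪ T o (nxt j, NoConstantFraction.flip k j x))
  have h5 := card_union_le (T o (nxt j, x)) (T o (nxt j, NoConstantFraction.flip k j x))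
  omega

lemma sq_ineq' (p q a b : ℕ) (hp : p ≤ a + b + 2) (hq : q ≤ b + 1) :
    3 * (p ^ 2 + q ^ 2) ≤ 8 * (a ^ 2 + b ^ 2) + 816 := by
  have h1 : p ^ 2 ≤ (a + b + 2) ^ 2 := Nat.pow_le_pow_left hp 2
  have h2 : q ^ 2 ≤ (b + 1) ^ 2 := Nat.pow_le_pow_left hq 2
  have h3 : 3 * ((a + b + 2) ^ 2 + (b + 1) ^ 2) ≤ 8 * (a ^ 2 + b ^ 2) + 816 := by
    zify
    nlinarith [sq_nonneg (5 * (a : ℤ) - 3 * b - 6), sq_nonneg ((b : ℤ) - 63)]
  omega

lemma pair_ineq' (o : BE k → Bool) (j : Fin k) (x : Fin k → Bool) :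
    3 * ((T o (lev k j, x)).card ^ 2 +
        (T o (lev k j, NoConstantFraction.flip k j x)).card ^ 2) ≤
      8 * ((T o (nxt j, x)).card ^ 2 +
        (T o (nxt j, NoConstantFraction.flip k j x)).card ^ 2) + 816 := by
  by_cases hd : dir o j x = !x j
  · refine sq_ineq' _ _ _ _ (T_B o j x hd) (T_A o j _ ?_)
    rw [dir_flip, flip_apply, hd]
    cases x j <;> simp
  · have hd' : dir o j (NoConstantFraction.flip k j x) = !(NoConstantFraction.flip k j x) j := by
      rw [dir_flip, flip_apply]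
      cases h1 : x j <;> cases h2 : dir o j x <;> simp_all
    have h1 := T_B o j (NoConstantFraction.flip k j x) hd'
    rw [NoConstantFraction.flip_flip] at h1
    have h2 := T_A o j x hd
    have := sq_ineq' _ _ _ _ h1 h2
    omega

lemma sum_ineq' (o : BE k → Bool) (j : Fin k) :
    3 * ∑ x, (T o (lev k j, x)).card ^ 2 ≤
      8 * ∑ x, (T o (nxt j, x)).card ^ 2 + 408 * 2 ^ k := by
  have h1 : ∑ x, (T o (lev k j, NoConstantFraction.flip k j x)).card ^ 2 =
      ∑ x, (T o (lev k j, x)).card ^ 2 :=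
    Equiv.sum_comp (flipE j) (fun x => (T o (lev k j, x)).card ^ 2)
  have h2 : ∑ x, (T o (nxt j, NoConstantFraction.flip k j x)).card ^ 2 =
      ∑ x, (T o (nxt j, x)).card ^ 2 :=
    Equiv.sum_comp (flipE j) (fun x => (T o (nxt j, x)).card ^ 2)
  have h3 := Finset.sum_le_sum (fun x (_ : x ∈ (univ : Finset (Fin k → Bool))) => pair_ineq' o j x)
  rw [← mul_sum, sum_add_distrib, sum_add_distrib, ← mul_sum, sum_add_distrib, h1, h2] at h3
  simp only [sum_const, card_univ, Fintype.card_pi, Fintype.card_bool, prod_const,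
    Fintype.card_fin, smul_eq_mul] at h3
  omega

lemma sum_level' (o : BE k → Bool) (n : ℕ) (hn : n ≤ k) :
    3 ^ n * (∑ x, (T o ((⟨k + 1 - n, by omega⟩ : Fin (k + 2)), x)).card ^ 2 + 82 * 2 ^ k) ≤
      83 * 8 ^ n * 2 ^ k := by
  induction n with
  | zero =>
    have : (⟨k + 1 - 0, by omega⟩ : Fin (k + 2)) = Fin.last (k + 1) := by
      apply Fin.ext; simp
    rw [this]
    simp only [T_last]
    simp
    omega
  | succ n ih =>
    have ih := ih (by omega)
    have h := sum_ineq' o (⟨k - n - 1, by omega⟩ : Fin k)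
    have e1 : lev k (⟨k - n - 1, by omega⟩ : Fin k) = ⟨k + 1 - (n + 1), by omega⟩ := by
      apply Fin.ext; simp only [lev]; omega
    have e2 : nxt (⟨k - n - 1, by omega⟩ : Fin k) = ⟨k + 1 - n, by omega⟩ := by
      apply Fin.ext; simp only [nxt]; omega
    rw [e1, e2] at h
    set s := ∑ x, (T o ((⟨k + 1 - (n + 1), by omega⟩ : Fin (k + 2)), x)).card ^ 2
    set s' := ∑ x, (T o ((⟨k + 1 - n, by omega⟩ : Fin (k + 2)), x)).card ^ 2
    calc 3 ^ (n + 1) * (s + 82 * 2 ^ k) = 3 ^ n * (3 * s + 246 * 2 ^ k) := by ring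
      _ ≤ 3 ^ n * (8 * (s' + 82 * 2 ^ k)) := Nat.mul_le_mul_left _ (by omega)
      _ = 8 * (3 ^ n * (s' + 82 * 2 ^ k)) := by ring
      _ ≤ 8 * (83 * 8 ^ n * 2 ^ k) := Nat.mul_le_mul_left 8 ih
      _ = _ := by ring

/-- the bound for the number of reachable pairs on one level -/
noncomputable def B (k : ℕ) : ℝ := Real.sqrt (83 * (32 / 3) ^ k)

lemma B_nonneg (k : ℕ) : 0 ≤ B k := Real.sqrt_nonneg _

lemma two_pow_le_B (k : ℕ) : (2 : ℝ) ^ k ≤ B k := by
  unfold B
  apply Real.le_sqrt_of_sq_le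
  have h1 : ((2 : ℝ) ^ k) ^ 2 = 4 ^ k := by rw [← pow_mul, mul_comm, pow_mul]; norm_num
  rw [h1]
  have h2 : (4 : ℝ) ^ k ≤ (32 / 3) ^ k := pow_le_pow_left₀ (by norm_num) (by norm_num) k
  have h3 : (0 : ℝ) ≤ (32 / 3) ^ k := by positivity
  linarith

lemma level_le (o : BE k → Bool) (i : Fin (k + 2)) (hi : i ≠ 0) :
    ((∑ x, (T o (i, x)).card : ℕ) : ℝ) ≤ B k := by
  have hi1 : 1 ≤ i.val := by
    rcases Nat.eq_zero_or_pos i.val with h | h
    · exact absurd (Fin.ext h) hi
    · exact h
  have hi2 := i.2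
  have h := sum_level' o (k + 1 - i.val) (by omega)
  have e : (⟨k + 1 - (k + 1 - i.val), by omega⟩ : Fin (k + 2)) = i := by
    apply Fin.ext; simp only; omega
  rw [e] at h
  set n := k + 1 - i.val with hn
  have hnk : n ≤ k := by omega
  set s := ∑ x, (T o (i, x)).card ^ 2 with hs
  have h1 : (3 : ℝ) ^ n * s ≤ 83 * 8 ^ n * 2 ^ k := by
    have : 3 ^ n * s ≤ 83 * 8 ^ n * 2 ^ k :=
      le_trans (Nat.mul_le_mul_left _ (Nat.le_add_right _ _)) h
    exact_mod_cast this
  have h2 : (s : ℝ) ≤ 83 * (8 / 3) ^ k * 2 ^ k := by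
    have h3 : (s : ℝ) ≤ 83 * (8 / 3) ^ n * 2 ^ k := by
      rw [div_pow, mul_div_assoc', div_mul_eq_mul_div, le_div_iff₀ (by positivity)]
      linarith
    refine h3.trans ?_
    have h4 : ((8 : ℝ) / 3) ^ n ≤ (8 / 3) ^ k := pow_le_pow_right₀ (by norm_num) hnk
    gcongr
  have h3 : (∑ x, (T o (i, x)).card) ^ 2 ≤ (univ : Finset (Fin k → Bool)).card * s :=
    sq_sum_le_card_mul_sum_sq
  have h4 : (univ : Finset (Fin k → Bool)).card = 2 ^ k := by simp
  rw [h4] at h3
  unfold B
  apply Real.le_sqrt_of_sq_le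
  have h5 : ((∑ x, (T o (i, x)).card : ℕ) : ℝ) ^ 2 ≤ 2 ^ k * s := by exact_mod_cast h3
  refine h5.trans ?_
  calc (2 : ℝ) ^ k * s ≤ 2 ^ k * (83 * (8 / 3) ^ k * 2 ^ k) := by gcongr
    _ = 83 * (2 * (8 / 3) * 2) ^ k := by rw [mul_pow, mul_pow]; ring
    _ = 83 * (32 / 3) ^ k := by norm_num

lemma total_le (o : BE k → Bool) :
    ((∑ v : BV k, (T o v).card : ℕ) : ℝ) ≤ (k + 3) * B k := by
  rw [Fintype.sum_prod_type, Fin.sum_univ_succ]
  push_cast
  have h0 : (∑ x, ((T o ((0 : Fin (k + 2)), x)).card : ℝ)) ≤ 2 * B k := by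
    have h1 := level_le o 1 (by
      intro h
      have := congrArg Fin.val h
      simp at this)
    push_cast at h1
    have h2 : (∑ x, ((T o ((0 : Fin (k + 2)), x)).card : ℝ)) ≤
        ∑ x, (((T o ((1 : Fin (k + 2)), x)).card : ℝ) + 1) := by
      refine Finset.sum_le_sum fun x _ => ?_
      have := T_zero o x
      exact_mod_cast this
    rw [sum_add_distrib] at h2
    simp only [sum_const, card_univ, Fintype.card_pi, Fintype.card_bool, prod_const,
      Fintype.card_fin, nsmul_eq_mul, mul_one] at h2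
    push_cast at h2
    have h3 := two_pow_le_B k
    linarith
  have h1 : (∑ i : Fin (k + 1), ∑ x, ((T o (i.succ, x)).card : ℝ)) ≤ (k + 1) * B k := by
    have h2 : (∑ i : Fin (k + 1), ∑ x, ((T o (i.succ, x)).card : ℝ)) ≤
        ∑ _i : Fin (k + 1), B k := by
      refine Finset.sum_le_sum fun i _ => ?_
      have := level_le o i.succ (Fin.succ_ne_zero i)
      push_cast at this
      exact this
    simpa using h2
  linarith

end butterfly

/-! ### adding isolated vertices -/

/-- the mixed graph with the vertices renamed by an injection (and isolated vertices added) -/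
def extend {V W E A : Type} (f : V → W) (hf : Function.Injective f) (G : MixedGraph V E A) :
    MixedGraph W E A where
  fst e := f (G.fst e)
  snd e := f (G.snd e)
  fst_ne_snd e h := G.fst_ne_snd e (hf h)
  tail a := f (G.tail a)
  head a := f (G.head a)
  tail_ne_head a h := G.tail_ne_head a (hf h)

lemma extend_step {V W E A : Type} (f : V → W) (hf : Function.Injective f) (G : MixedGraph V E A)
    {u v : V} (h : G.Step u v) : (extend f hf G).Step (f u) (f v) := by
  rcases h with ⟨a, h1, h2⟩ | ⟨e, ⟨h1, h2⟩ | ⟨h1, h2⟩⟩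
  · exact Or.inl ⟨a, congrArg f h1, congrArg f h2⟩
  · exact Or.inr ⟨e, Or.inl ⟨congrArg f h1, congrArg f h2⟩⟩
  · exact Or.inr ⟨e, Or.inr ⟨congrArg f h1, congrArg f h2⟩⟩

lemma extend_reach {V W E A : Type} (f : V → W) (hf : Function.Injective f) (G : MixedGraph V E A)
    {u v : V} (h : ReflTransGen G.Step u v) : ReflTransGen (extend f hf G).Step (f u) (f v) :=
  h.lift f fun _ _ h => extend_step f hf G h

lemma extend_ostep {V W E A : Type} (f : V → W) (hf : Function.Injective f) (G : MixedGraph V E A)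
    (o : E → Bool) {p q : W} (h : (extend f hf G).OStep o p q) :
    ∃ u v, f u = p ∧ f v = q ∧ G.OStep o u v := by
  rcases h with ⟨a, h1, h2⟩ | ⟨e, ⟨ho, h1, h2⟩ | ⟨ho, h1, h2⟩⟩
  · exact ⟨_, _, h1, h2, Or.inl ⟨a, rfl, rfl⟩⟩
  · exact ⟨_, _, h1, h2, Or.inr ⟨e, Or.inl ⟨ho, rfl, rfl⟩⟩⟩
  · exact ⟨_, _, h1, h2, Or.inr ⟨e, Or.inr ⟨ho, rfl, rfl⟩⟩⟩

lemma extend_oreach {V W E A : Type} (f : V → W) (hf : Function.Injective f) (G : MixedGraph V E A)
    (o : E → Bool) {p q : W} (h : ReflTransGen ((extend f hf G).OStep o) p q) (hne : p ≠ q) :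
    ∃ u v, f u = p ∧ f v = q ∧ ReflTransGen (G.OStep o) u v := by
  induction h with
  | refl => exact absurd rfl hne
  | @tail b c hb hs ih =>
    obtain ⟨u', v', h1, h2, h3⟩ := extend_ostep f hf G o hs
    by_cases hpb : p = b
    · exact ⟨u', v', h1.trans hpb.symm, h2, ReflTransGen.single h3⟩
    · obtain ⟨u, v, h4, h5, h6⟩ := ih hpb
      have : v = u' := hf (h5.trans h1.symm)
      subst this
      exact ⟨u, v', h4, h2, h6.tail h3⟩

lemma upper' {k : ℕ} {W : Type} [Fintype W] (f : BV k → W) (hf : Function.Injective f)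
    (o : BE k → Bool) :
    weightedReach ((extend f hf (butterfly k)).OStep o) (fun _ => 1) ≤
      ∑ v : BV k, (T o v).card := by
  classical
  rw [← card_sigma]
  refine (weightedReach_le _ _ (fun _ => le_rfl)
    (((univ : Finset (BV k)).sigma fun v => T o v).image (fun q => (f q.1, f q.2))) ?_).trans
    card_image_le
  intro p hne hr _ _
  obtain ⟨u, v, h1, h2, h3⟩ := extend_oreach f hf (butterfly k) o hr hne
  rw [mem_image]
  exact ⟨⟨u, v⟩, mem_sigma.2 ⟨mem_univ _, (mem_T _ _ _).2 h3⟩, Prod.ext h1 h2⟩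

lemma lower' {k : ℕ} {W : Type} [Fintype W] (f : BV k → W) (hf : Function.Injective f) :
    4 ^ k ≤ weightedReach (extend f hf (butterfly k)).Step (fun _ => 1) := by
  classical
  let g : (Fin k → Bool) × (Fin k → Bool) → W × W :=
    fun p => (f (0, p.1), f (Fin.last (k + 1), p.2))
  have hg : Function.Injective g := by
    rintro ⟨a, b⟩ ⟨c, d⟩ h
    simp only [g, Prod.mk.injEq] at h
    have h1 := hf h.1
    have h2 := hf h.2
    simp only [Prod.mk.injEq, true_and] at h1 h2
    rw [h1, h2]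
  have h2 : (univ.image g).card = 4 ^ k := by
    rw [card_image_of_injective _ hg]
    simp only [card_univ, Fintype.card_prod, Fintype.card_pi, Fintype.card_bool,
      prod_const, Fintype.card_fin]
    rw [← mul_pow]
    norm_num
  rw [← h2]
  apply le_weightedReach
  intro p hp
  rw [mem_image] at hp
  obtain ⟨q, _, rfl⟩ := hp
  refine ⟨?_, extend_reach f hf _ (reach_all _ _), rfl, rfl⟩
  intro h
  have h1 := hf h
  have := congrArg Fin.val (congrArg Prod.fst h1)
  simp at this

/-- the bound which makes the constant -/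
lemma bounded : ∃ C : ℕ, ∀ k : ℕ, ((k : ℝ) + 3) ^ 5 * (8 / 9) ^ k ≤ C := by
  have h1 : Filter.Tendsto (fun n : ℕ => (n : ℝ) ^ 5 * (8 / 9 : ℝ) ^ n) Filter.atTop (nhds 0) :=
    tendsto_pow_const_mul_const_pow_of_abs_lt_one 5 (by rw [abs_of_pos] <;> norm_num)
  obtain ⟨b, hb⟩ := h1.bddAbove_range
  refine ⟨⌈2 * b⌉₊, fun k => ?_⟩
  have h2 : ((k + 3 : ℕ) : ℝ) ^ 5 * (8 / 9 : ℝ) ^ (k + 3) ≤ b := hb ⟨k + 3, rfl⟩
  push_cast at h2
  rw [pow_add] at h2
  have h3 : 0 ≤ ((k : ℝ) + 3) ^ 5 * (8 / 9) ^ k := by positivity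
  have h4 : ((k : ℝ) + 3) ^ 5 * (8 / 9) ^ k ≤ 2 * b := by nlinarith
  exact h4.trans (Nat.le_ceil _)

/-- **No orientation keeps more than a fraction `O(n^(-1/4))` of the reachable pairs.** There is a
constant `C` such that for every `n ≥ 2` there is a mixed graph `G` on `n` vertices with `R(G) > 0`
such that every orientation `H` of `G` has `R(H) ^ 4 ≤ (C / n) * R(G) ^ 4`, that is,
`R(H) ≤ (C / n) ^ (1 / 4) * R(G)`. Here `R` is the unweighted reachability (all weights are `1`):
the number of ordered pairs of distinct vertices the second of which is reachable from the first. -/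
theorem result : ∃ C : ℕ, ∀ n : ℕ, 2 ≤ n →
    ∃ (E A : Type) (_ : Finite E) (_ : Finite A) (G : MixedGraph (Fin n) E A),
      0 < weightedReach G.Step (fun _ => 1) ∧
      ∀ o : E → Bool, n * weightedReach (G.OStep o) (fun _ => 1) ^ 4 ≤
        C * weightedReach G.Step (fun _ => 1) ^ 4 := by
  obtain ⟨C, hC⟩ := bounded
  refine ⟨2 * 83 ^ 2 * C, fun n hn => ?_⟩
  -- the largest butterfly with at most `n` vertices
  obtain ⟨k, hk1, hk2⟩ : ∃ k : ℕ, (k + 2) * 2 ^ k ≤ n ∧ n < (k + 3) * 2 ^ (k + 1) := by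
    have hex : ∃ k : ℕ, n < (k + 3) * 2 ^ (k + 1) := ⟨n, by
      have := Nat.lt_two_pow_self (n := n + 1)
      nlinarith [Nat.zero_le n]⟩
    classical
    refine ⟨Nat.find hex, ?_, Nat.find_spec hex⟩
    rcases Nat.eq_zero_or_pos (Nat.find hex) with h | h
    · rw [h]; simpa using hn
    · have h1 := Nat.find_min hex (Nat.sub_lt h one_pos)
      push Not at h1
      have h2 : Nat.find hex - 1 + 3 = Nat.find hex + 2 := by omega
      have h3 : Nat.find hex - 1 + 1 = Nat.find hex := by omega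
      rwa [h2, h3] at h1
  have hcard : Fintype.card (BV k) ≤ n := by
    simp only [Fintype.card_prod, Fintype.card_fin, Fintype.card_pi, Fintype.card_bool, prod_const,
      card_univ]
    exact hk1
  obtain ⟨f⟩ : Nonempty (BV k ↪ Fin n) := by
    rw [Function.Embedding.nonempty_iff_card_le]
    simpa using hcard
  have hlow := lower' f f.injective (W := Fin n)
  refine ⟨BE k, BA k, inferInstance, inferInstance, extend f f.injective (butterfly k), ?_,
    fun o => ?_⟩
  · exact lt_of_lt_of_le (by positivity) hlow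
  have hup := upper' f f.injective (W := Fin n) o
  have htot := total_le o
  set Q := weightedReach ((extend f f.injective (butterfly k)).OStep o) (fun _ => 1)
  set P := weightedReach (extend f f.injective (butterfly k)).Step (fun _ => 1)
  have hQ : (Q : ℝ) ≤ (k + 3) * B k := le_trans (by exact_mod_cast hup) htot
  have hP : (4 : ℝ) ^ k ≤ P := by exact_mod_cast hlow
  have hn' : (n : ℝ) ≤ (k + 3) * 2 ^ (k + 1) := by exact_mod_cast hk2.le
  have hB : B k ^ 4 = 83 ^ 2 * ((32 / 3) ^ 2) ^ k := by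
    have : B k ^ 4 = (B k ^ 2) ^ 2 := by ring
    rw [this]
    unfold B
    rw [Real.sq_sqrt (by positivity), mul_pow, ← pow_mul, ← pow_mul, mul_comm k 2]
  have hmain : (n : ℝ) * Q ^ 4 ≤ (2 * 83 ^ 2 * C : ℕ) * P ^ 4 := by
    calc (n : ℝ) * Q ^ 4 ≤ ((k + 3) * 2 ^ (k + 1)) * ((k + 3) * B k) ^ 4 := by gcongr
      _ = 2 * (k + 3) ^ 5 * 2 ^ k * B k ^ 4 := by ring
      _ = 2 * 83 ^ 2 * ((k + 3) ^ 5 * (8 / 9) ^ k) * ((4 : ℝ) ^ k) ^ 4 := by
          rw [hB]
          have h1 : ((4 : ℝ) ^ k) ^ 4 = 256 ^ k := by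
            rw [← pow_mul, mul_comm, pow_mul]; norm_num
          rw [h1]
          have h2 : (2 : ℝ) ^ k * ((32 / 3) ^ 2) ^ k = (8 / 9) ^ k * 256 ^ k := by
            rw [← mul_pow, ← mul_pow]; norm_num
          linear_combination (2 * ((k : ℝ) + 3) ^ 5 * 83 ^ 2) * h2
      _ ≤ 2 * 83 ^ 2 * C * (P : ℝ) ^ 4 := by
          have := hC k
          gcongr
      _ = _ := by push_cast; ring
  exact_mod_cast hmain

end Pool.Agent.Results.MP_408802_co.PolynomialLoss
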